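import Pool.Agent.Run7.h622.SubAll

/-!
For an arbitrary abelian group `A`, the lattice `Sub(A)` of subgroups embeds, as a lattice, into
the lattice of subspaces of some vector space over some division ring if and only if no quotient
of a subgroup of `A` is isomorphic to `(ℤ/m)³` with `m` composite.
-/

universe u v w

namespace Pool.Agent.Results.MP_0a2dc5_al.Classification

theorem result (A : Type w) [AddCommGroup A] :
    (∃ (D : Type u) (_ : DivisionRing D) (V : Type (max v w)) (_ : AddCommGroup V)
      (_ : Module D V) (f : LatticeHom (AddSubgroup A) (Submodule D V)), Function.Injective f) ↔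
    ∀ m : ℕ, 1 < m → ¬ m.Prime →
      ¬ ∃ (B : AddSubgroup A) (g : B →+ (Fin 3 → ZMod m)), Function.Surjective g :=
  Run7.h622.SubAll.classification A

end Pool.Agent.Results.MP_0a2dc5_al.Classification
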